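import Pool.Agent.R950.TMMain

/-!
# MP_2bf81a_ag: the theta map `Th : A_g(2,4) → P^{2^g-1}` is not an embedding for `g ≥ 4`

At the product point `τ₀ = i·diag(√2, √3, √5, …)` the function
`τ₁₂ τ₃₄ (τ₂₃ τ₁₄ - τ₂₄ τ₁₃)` is a holomorphic function on a neighbourhood of the point in
`A_g(2,4)` which is not the pull-back of a holomorphic function on projective space.
-/

namespace Pool.Agent.Results.MP_2bf81a_ag.NotEmbedding

open Pool.Agent.R950.TM

/-- For every `g ≥ 4`, at the point `τ₀` of the Siegel upper half-space not every germ of a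
holomorphic function on `A_g(2,4)` is a pull-back under `Th` of a germ of a holomorphic function on
projective space; so it is false that `Th` is an embedding for all `g ≥ 1`. -/
theorem result :
    (∀ g : ℕ, 4 ≤ g → tau0 g ∈ Siegel g ∧ ¬ GermSurjective g (tau0 g)) ∧
      (∀ g : ℕ, 4 ≤ g → ¬ IsEmbedding g) ∧
      ¬ ∀ g : ℕ, 1 ≤ g → IsEmbedding g :=
  ⟨fun g hg => ⟨tau0_mem g, main hg⟩,
    fun g hg h => main hg (h.germs _ (tau0_mem g)),
    fun h => main (le_refl 4) ((h 4 (by norm_num)).germs _ (tau0_mem 4))⟩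

end Pool.Agent.Results.MP_2bf81a_ag.NotEmbedding
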